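import Pool.Agent.H97.Ic2

namespace Pool.Agent.Results.MP_560646_mp.Three

open Real Pool.Agent.H97.Ic

/-- Binary Renyi entropy. -/
noncomputable def hb (α p : ℝ) : ℝ := log (p ^ α + (1 - p) ^ α) / (1 - α)

/-- The inverse of `hb α` on `[0, 1/2]`. -/
noncomputable def gb (α : ℝ) : ℝ → ℝ := Function.invFunOn (hb α) (Set.Icc 0 (1 / 2))

/-- Binary convolution. -/
def cv (p q : ℝ) : ℝ := p * (1 - q) + (1 - p) * q

/-- The conjectured bound. -/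
noncomputable def F (α H₁ H₂ : ℝ) : ℝ :=
  if H₁ + H₂ ≤ log 2 then hb α (cv (gb α H₁) (gb α H₂))
  else H₁ + H₂ - log 2 + hb α (cv (gb α (log 2 - H₁)) (gb α (log 2 - H₂)))

lemma hb3 (p : ℝ) : hb 3 p = log ((1 + 3 * (1 - 2 * p) ^ 2) / 4) / (1 - 3) := by
  unfold hb
  rw [show (3 : ℝ) = ((3 : ℕ) : ℝ) by norm_num, rpow_natCast, rpow_natCast]
  congr 2
  push_cast
  ring

lemma gb3 (s : ℝ) (h0 : 0 ≤ s) (h1 : s ≤ 1) :
    (1 - 2 * gb 3 (log ((1 + 3 * s) / 4) / (1 - 3))) ^ 2 = s := by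
  have hs : √s ≤ 1 := sqrt_le_one.mpr h1
  have hs0 := sqrt_nonneg s
  have hex : ∃ p ∈ Set.Icc (0 : ℝ) (1 / 2), hb 3 p = log ((1 + 3 * s) / 4) / (1 - 3) := by
    refine ⟨(1 - √s) / 2, ⟨by linarith, by linarith⟩, ?_⟩
    rw [hb3, show 1 - 2 * ((1 - √s) / 2) = √s by ring, sq_sqrt h0]
  have h := Function.invFunOn_eq hex
  rw [hb3] at h
  have h2 := log_injOn_pos (Set.mem_Ioi.mpr (by positivity)) (Set.mem_Ioi.mpr (by positivity))
    ((div_left_inj' (by norm_num)).mp h)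
  unfold gb
  linarith

lemma hcv (s t : ℝ) (h0 : 0 ≤ s) (h1 : s ≤ 1) (k0 : 0 ≤ t) (k1 : t ≤ 1) :
    hb 3 (cv (gb 3 (log ((1 + 3 * s) / 4) / (1 - 3))) (gb 3 (log ((1 + 3 * t) / 4) / (1 - 3)))) =
      log ((1 + 3 * (s * t)) / 4) / (1 - 3) := by
  have a := gb3 s h0 h1
  have b := gb3 t k0 k1
  rw [hb3]
  congr 4
  generalize gb 3 (log ((1 + 3 * s) / 4) / (1 - 3)) = x at a ⊢
  generalize gb 3 (log ((1 + 3 * t) / 4) / (1 - 3)) = y at b ⊢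
  rw [← a, ← b]
  unfold cv
  ring

lemma dual (s : ℝ) (h0 : 0 ≤ s) : log 2 - log ((1 + 3 * s) / 4) / (1 - 3) =
    log ((1 + 3 * ((1 - s) / (1 + 3 * s))) / 4) / (1 - 3) := by
  rw [show (1 + 3 * ((1 - s) / (1 + 3 * s))) / 4 = (1 + 3 * s)⁻¹ by field_simp; ring, log_inv,
    log_div (by positivity) (by norm_num), show (4 : ℝ) = 2 ^ 2 by norm_num, log_pow]
  push_cast
  ring

theorem result {B₁ B₂ : Type} [Fintype B₁] [DecidableEq B₁] [Fintype B₂] [DecidableEq B₂]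
    (σ : Fin 2 → Matrix B₁ B₁ ℂ) (h : ∀ x, IsState (σ x))
    (σ' : Fin 2 → Matrix B₂ B₂ ℂ) (h' : ∀ x, IsState (σ' x)) :
    Hs 3 (tau σ σ') = F 3 (Hs 3 (cq σ)) (Hs 3 (cq σ')) := by
  obtain ⟨s, t, s0, s1, t0, t1, a, b, c⟩ := val3 σ h σ' h'
  unfold Hs F
  rw [a, b, c]
  split_ifs
  · exact (hcv s t s0 s1 t0 t1).symm
  · have u : ∀ x : ℝ, 0 ≤ x → x ≤ 1 → 0 ≤ (1 - x) / (1 + 3 * x) ∧ (1 - x) / (1 + 3 * x) ≤ 1 :=
      fun x p q => ⟨div_nonneg (by linarith) (by positivity),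
        (div_le_one (by positivity)).mpr (by linarith)⟩
    have ⟨u0, u1⟩ := u s s0 s1
    have ⟨v0, v1⟩ := u t t0 t1
    rw [dual s s0, dual t t0, hcv _ _ u0 u1 v0 v1]
    have e : (1 + 3 * (s * t)) / 4 = (1 + 3 * s) / 4 * ((1 + 3 * t) / 4) * 2 ^ 2 *
        ((1 + 3 * ((1 - s) / (1 + 3 * s) * ((1 - t) / (1 + 3 * t)))) / 4) := by
      field_simp
      ring
    rw [e, log_mul (by positivity) (by positivity), log_mul (by positivity) (by positivity),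
      log_mul (by positivity) (by positivity), log_pow]
    push_cast
    ring

end Pool.Agent.Results.MP_560646_mp.Three
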